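import Mathlib

namespace Pool.Agent.H.MP_07ea7a_an

open Filter Topology Set
open scoped ContDiff Manifold

variable {d : ℕ} {𝕂 : Type} [RCLike 𝕂]

/-- all derivatives of order at most `n` of `f - g` are smaller than `ε` on `K` -/
def Near (K : Set (Fin d → ℝ)) (n : ℕ) (ε : ℝ) (f g : (Fin d → ℝ) → 𝕂) : Prop :=
  ∀ x ∈ K, ∀ j ≤ n, ‖iteratedFDeriv ℝ j (f - g) x‖ < ε

/-- weighted composition operator -/
def T (w : (Fin d → ℝ) → 𝕂) (ψ : (Fin d → ℝ) → Fin d → ℝ) (f : (Fin d → ℝ) → 𝕂) :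
    (Fin d → ℝ) → 𝕂 := fun x => w x * f (ψ x)

/-- topological transitivity on basic open sets -/
def Trans (Ω : Set (Fin d → ℝ)) (w : (Fin d → ℝ) → 𝕂) (ψ : (Fin d → ℝ) → Fin d → ℝ) : Prop :=
  ∀ f g : (Fin d → ℝ) → 𝕂, ContDiffOn ℝ ∞ f Ω → ContDiffOn ℝ ∞ g Ω →
    ∀ K ⊆ Ω, IsCompact K → ∀ (n : ℕ) (ε : ℝ), 0 < ε →
      ∃ (m : ℕ) (h : (Fin d → ℝ) → 𝕂), ContDiffOn ℝ ∞ h Ω ∧ Near K n ε h f ∧
        Near K n ε ((T w ψ)^[m] h) g

/-- topological mixing on basic open sets -/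
def Mixing (Ω : Set (Fin d → ℝ)) (w : (Fin d → ℝ) → 𝕂) (ψ : (Fin d → ℝ) → Fin d → ℝ) : Prop :=
  ∀ f g : (Fin d → ℝ) → 𝕂, ContDiffOn ℝ ∞ f Ω → ContDiffOn ℝ ∞ g Ω →
    ∀ K ⊆ Ω, IsCompact K → ∀ (n : ℕ) (ε : ℝ), 0 < ε →
      ∃ M : ℕ, ∀ m ≥ M, ∃ h : (Fin d → ℝ) → 𝕂, ContDiffOn ℝ ∞ h Ω ∧ Near K n ε h f ∧
        Near K n ε ((T w ψ)^[m] h) g

/-- the periodic points are dense -/
def DensePer (Ω : Set (Fin d → ℝ)) (w : (Fin d → ℝ) → 𝕂) (ψ : (Fin d → ℝ) → Fin d → ℝ) : Prop :=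
  ∀ f : (Fin d → ℝ) → 𝕂, ContDiffOn ℝ ∞ f Ω →
    ∀ K ⊆ Ω, IsCompact K → ∀ (n : ℕ) (ε : ℝ), 0 < ε →
      ∃ (N : ℕ) (h : (Fin d → ℝ) → 𝕂), 1 ≤ N ∧ ContDiffOn ℝ ∞ h Ω ∧
        EqOn ((T w ψ)^[N] h) h Ω ∧ Near K n ε h f

def W (w : (Fin d → ℝ) → 𝕂) (ψ : (Fin d → ℝ) → Fin d → ℝ) (m : ℕ) (x : Fin d → ℝ) : 𝕂 :=
  ∏ i ∈ Finset.range m, w (ψ^[i] x)

variable {Ω : Set (Fin d → ℝ)} {w : (Fin d → ℝ) → 𝕂} {ψ : (Fin d → ℝ) → Fin d → ℝ}

theorem W_add (m k x) : W w ψ (m + k) x = W w ψ m x * W w ψ k (ψ^[m] x) := by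
  rw [W, Finset.prod_range_add]
  congr 1
  exact Finset.prod_congr rfl fun i _ => by rw [add_comm, Function.iterate_add_apply]

theorem T_iter (m : ℕ) (h : (Fin d → ℝ) → 𝕂) (x) :
    (T w ψ)^[m] h x = W w ψ m x * h (ψ^[m] x) := by
  induction m generalizing x with
  | zero => simp [W]
  | succ m ih =>
    rw [Function.iterate_succ_apply', T, ih, add_comm, W_add, add_comm,
      Function.iterate_succ_apply]
    simp [W, mul_assoc]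

theorem iter_smooth (hψ : ContDiffOn ℝ ∞ ψ Ω) (hm : MapsTo ψ Ω Ω) (m : ℕ) :
    ContDiffOn ℝ ∞ ψ^[m] Ω := by
  induction m with
  | zero => exact contDiffOn_id
  | succ m ih => exact ih.comp hψ hm

theorem W_smooth (hw : ContDiffOn ℝ ∞ w Ω) (hψ : ContDiffOn ℝ ∞ ψ Ω) (hm : MapsTo ψ Ω Ω) (m : ℕ) :
    ContDiffOn ℝ ∞ (W w ψ m) Ω :=
  contDiffOn_prod fun i _ => hw.comp (iter_smooth hψ hm i) (hm.iterate i)

theorem W_ne (hm : MapsTo ψ Ω Ω) (h0 : ∀ x ∈ Ω, w x ≠ 0) (m) {x} (hx : x ∈ Ω) : W w ψ m x ≠ 0 :=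
  Finset.prod_ne_zero_iff.2 fun i _ => h0 _ (hm.iterate i hx)

theorem T_smooth (hw : ContDiffOn ℝ ∞ w Ω) (hψ : ContDiffOn ℝ ∞ ψ Ω) (hm : MapsTo ψ Ω Ω) (m : ℕ)
    {h} (hh : ContDiffOn ℝ ∞ h Ω) : ContDiffOn ℝ ∞ ((T w ψ)^[m] h) Ω :=
  ((W_smooth hw hψ hm m).mul (hh.comp (iter_smooth hψ hm m) (hm.iterate m))).congr
    fun x _ => T_iter m h x

theorem near_of_eq {K : Set (Fin d → ℝ)} {f g : (Fin d → ℝ) → 𝕂} (h : ∀ x ∈ K, f =ᶠ[𝓝 x] g) (n)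
    {ε : ℝ} (hε : 0 < ε) : Near K n ε f g := by
  intro x hx j _
  have : f - g =ᶠ[𝓝 x] 0 := (h x hx).mono fun y hy => by simp [hy]
  rw [(this.iteratedFDeriv ℝ j).self_of_nhds]
  simpa using hε

theorem dAt {F : Type} [NormedAddCommGroup F] [NormedSpace ℝ F] (hΩ : IsOpen Ω)
    {f : (Fin d → ℝ) → F} (hf : ContDiffOn ℝ ∞ f Ω) {x} (hx : x ∈ Ω) : DifferentiableAt ℝ f x :=
  (hf.contDiffAt (hΩ.mem_nhds hx)).differentiableAt (by simp)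

theorem iter_inj (hΩ : IsOpen Ω) (hψ : ContDiffOn ℝ ∞ ψ Ω) (hm : MapsTo ψ Ω Ω)
    (hd : ∀ x ∈ Ω, Function.Injective (fderiv ℝ ψ x)) (m) {x} (hx : x ∈ Ω) :
    Function.Injective (fderiv ℝ ψ^[m] x) := by
  induction m generalizing x with
  | zero => simpa using Function.injective_id
  | succ m ih =>
    rw [Function.iterate_succ, fderiv_comp x (dAt hΩ (iter_smooth hψ hm m) (hm hx)) (dAt hΩ hψ hx)]
    exact (ih (hm hx)).comp (hd x hx)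

theorem inv_smooth (hΩ : IsOpen Ω) {φ : (Fin d → ℝ) → Fin d → ℝ} (hφ : ContDiffOn ℝ ∞ φ Ω)
    (hi : InjOn φ Ω) (hd : ∀ x ∈ Ω, Function.Injective (fderiv ℝ φ x)) {x} (hx : x ∈ Ω) :
    φ '' Ω ∈ 𝓝 (φ x) ∧ ContDiffAt ℝ ∞ (Function.invFunOn φ Ω) (φ x) := by
  let e : (Fin d → ℝ) ≃L[ℝ] (Fin d → ℝ) :=
    (LinearEquiv.ofInjectiveEndo (fderiv ℝ φ x).toLinearMap (hd x hx)).toContinuousLinearEquiv
  have h1 : HasFDerivAt φ (e : (Fin d → ℝ) →L[ℝ] (Fin d → ℝ)) x := by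
    have : (e : (Fin d → ℝ) →L[ℝ] (Fin d → ℝ)) = fderiv ℝ φ x := by ext; rfl
    rw [this]
    exact (dAt hΩ hφ hx).hasFDerivAt
  have h2 := hφ.contDiffAt (hΩ.mem_nhds hx)
  have h3 := h2.hasStrictFDerivAt' h1 (by simp)
  refine ⟨h3.map_nhds_eq_of_equiv ▸ image_mem_map (hΩ.mem_nhds hx), ?_⟩
  refine (h2.to_localInverse h1 (by simp)).congr_of_eventuallyEq (h3.localInverse_unique ?_)
  filter_upwards [hΩ.mem_nhds hx] with y hy using hi.leftInvOn_invFunOn hy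

structure Nice (Ω : Set (Fin d → ℝ)) (w : (Fin d → ℝ) → 𝕂) (ψ : (Fin d → ℝ) → Fin d → ℝ) :
    Prop where
  op : IsOpen Ω
  sw : ContDiffOn ℝ ∞ w Ω
  sψ : ContDiffOn ℝ ∞ ψ Ω
  mp : MapsTo ψ Ω Ω
  nz : ∀ x ∈ Ω, w x ≠ 0
  inj : InjOn ψ Ω
  dj : ∀ x ∈ Ω, Function.Injective (fderiv ℝ ψ x)

theorem Nice.step (H : Nice Ω w ψ) {f g : (Fin d → ℝ) → 𝕂} (hf : ContDiffOn ℝ ∞ f Ω)
    (hg : ContDiffOn ℝ ∞ g Ω) {K} (hK : K ⊆ Ω) (hc : IsCompact K) {m : ℕ}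
    (hdis : Disjoint K (ψ^[m] '' K)) :
    ∃ h, ContDiffOn ℝ ∞ h Ω ∧ (∀ x ∈ K, h =ᶠ[𝓝 x] f) ∧ ∀ x ∈ K, (T w ψ)^[m] h =ᶠ[𝓝 x] g := by
  have sφ := iter_smooth H.sψ H.mp m
  have iφ : InjOn ψ^[m] Ω := H.inj.iterate H.mp m
  have key := fun x (hx : x ∈ Ω) => inv_smooth H.op sφ iφ (fun x hx =>
    iter_inj H.op H.sψ H.mp H.dj m hx) hx
  have hO : IsOpen (ψ^[m] '' Ω) := isOpen_iff_mem_nhds.2 (by
    rintro _ ⟨x, hx, rfl⟩; exact (key x hx).1)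
  have hc' : IsCompact (ψ^[m] '' K) := hc.image_of_continuousOn (sφ.continuousOn.mono hK)
  obtain ⟨χ, h0, h1, -⟩ := exists_contMDiffMap_zero_one_nhds_of_isClosed (n := ⊤)
    𝓘(ℝ, Fin d → ℝ) (hO.isClosed_compl.union hc.isClosed) hc'.isClosed
    (disjoint_union_left.2 ⟨disjoint_compl_left_iff_subset.2 (image_mono hK), hdis⟩)
  have sχ : ContDiff ℝ ∞ χ := χ.contMDiff.contDiff
  let G : (Fin d → ℝ) → 𝕂 := fun y =>
    g (Function.invFunOn ψ^[m] Ω y) * (W w ψ m (Function.invFunOn ψ^[m] Ω y))⁻¹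
  refine ⟨fun y => (1 - χ y) • f y + χ y • G y, ?_, fun x hx => ?_, fun x hx => ?_⟩
  · refine ((contDiff_const.sub sχ).contDiffOn.smul hf).add fun y hy => ?_
    refine ContDiffAt.contDiffWithinAt ?_
    by_cases h : y ∈ ψ^[m] '' Ω
    · obtain ⟨x, hx, rfl⟩ := h
      have e : Function.invFunOn ψ^[m] Ω (ψ^[m] x) = x := iφ.leftInvOn_invFunOn hx
      have a1 : ContDiffAt ℝ ∞ (fun z => g z * (W w ψ m z)⁻¹)
          (Function.invFunOn ψ^[m] Ω (ψ^[m] x)) := by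
        rw [e]
        exact (hg.contDiffAt (H.op.mem_nhds hx)).mul ((contDiffAt_inv ℝ (W_ne H.mp H.nz m hx)).comp x
          ((W_smooth H.sw H.sψ H.mp m).contDiffAt (H.op.mem_nhds hx)))
      exact sχ.contDiffAt.smul (a1.comp _ (key x hx).2)
    · refine (contDiffAt_const (c := (0 : 𝕂))).congr_of_eventuallyEq ?_
      filter_upwards [h0.filter_mono (nhds_le_nhdsSet (mem_union_left _ h))] with z hz
      simp [hz]
  · filter_upwards [h0.filter_mono (nhds_le_nhdsSet (mem_union_right _ hx))] with z hz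
    simp [hz]
  · have := (sφ.continuousOn.continuousAt (H.op.mem_nhds (hK hx))).eventually
      (h1.filter_mono (nhds_le_nhdsSet (mem_image_of_mem _ hx)))
    filter_upwards [this, H.op.mem_nhds (hK hx)] with z hz hz'
    have := W_ne H.mp H.nz m hz'
    rw [T_iter]
    simp only [hz, G, iφ.leftInvOn_invFunOn hz', sub_self, zero_smul, one_smul, zero_add]
    field_simp

theorem Near.zero {K : Set (Fin d → ℝ)} {n ε} {f g : (Fin d → ℝ) → 𝕂} (h : Near K n ε f g) {x}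
    (hx : x ∈ K) : ‖f x - g x‖ < ε := by
  simpa using h x hx 0 (Nat.zero_le _)

theorem Near.one {K : Set (Fin d → ℝ)} {ε} {f g : (Fin d → ℝ) → 𝕂} (h : Near K 1 ε f g) {x}
    (hx : x ∈ K) (hf : DifferentiableAt ℝ f x) (hg : DifferentiableAt ℝ g x) (v) :
    ‖fderiv ℝ f x v - fderiv ℝ g x v‖ ≤ ε * ‖v‖ := by
  have h1 := h x hx 1 le_rfl
  rw [norm_iteratedFDeriv_one, fderiv_sub hf hg] at h1
  exact ((fderiv ℝ f x - fderiv ℝ g x).le_opNorm v).trans (by gcongr)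

theorem coord (y : Fin d → ℝ) (i : Fin d) :
    ContDiff ℝ ∞ (fun u : Fin d → ℝ => ((u i - y i : ℝ) : 𝕂)) ∧
    ∀ x v, fderiv ℝ (fun u : Fin d → ℝ => ((u i - y i : ℝ) : 𝕂)) x v = (v i : 𝕂) := by
  refine ⟨(RCLike.ofRealCLM (K := 𝕂)).contDiff.comp ((contDiff_apply ℝ ℝ i).sub contDiff_const),
    fun x v => ?_⟩
  have := (RCLike.ofRealCLM (K := 𝕂)).hasFDerivAt.comp x
    ((hasFDerivAt_apply (𝕜 := ℝ) i x).sub_const (y i))
  exact congrArg (· v) this.fderiv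

theorem per_iter (hm : MapsTo ψ Ω Ω) {N : ℕ} {h : (Fin d → ℝ) → 𝕂} (hp : EqOn ((T w ψ)^[N] h) h Ω)
    (q r : ℕ) : EqOn ((T w ψ)^[r + N * q] h) ((T w ψ)^[r] h) Ω := by
  induction q with
  | zero => exact fun x _ => rfl
  | succ q ih =>
    intro x hx
    rw [← ih hx, mul_add_one, ← add_assoc, Function.iterate_add_apply, T_iter,
      hp (hm.iterate _ hx), T_iter]

theorem per_range (hm : MapsTo ψ Ω Ω) (hw : ContDiffOn ℝ ∞ w Ω) (hψ : ContDiffOn ℝ ∞ ψ Ω) {N : ℕ}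
    (hN : 1 ≤ N) {h : (Fin d → ℝ) → 𝕂} (hh : ContDiffOn ℝ ∞ h Ω) (hp : EqOn ((T w ψ)^[N] h) h Ω) :
    ∃ f, ContDiffOn ℝ ∞ f Ω ∧ ∀ x ∈ Ω, h x = w x * f (ψ x) := by
  obtain ⟨k, rfl⟩ := Nat.exists_eq_add_of_le' hN
  exact ⟨_, T_smooth hw hψ hm k hh, fun x hx => by
    rw [← hp hx, Function.iterate_succ_apply']; rfl⟩

theorem small {c : ℝ} (hc : 0 < c) {A : ℝ} (hA : 0 ≤ A) : ∃ ε > 0, ε * A < c :=
  ⟨c / (A + 1), by positivity, by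
    rw [div_mul_eq_mul_div, div_lt_iff₀ (by positivity)]; nlinarith⟩

theorem nice_of_dense (hΩ : IsOpen Ω) (hw : ContDiffOn ℝ ∞ w Ω) (hψ : ContDiffOn ℝ ∞ ψ Ω)
    (hm : MapsTo ψ Ω Ω) (hD : DensePer Ω w ψ) : Nice Ω w ψ := by
  have nz : ∀ x ∈ Ω, w x ≠ 0 := by
    intro x hx h0
    obtain ⟨N, h, hN, hh, hp, hn⟩ := hD (fun _ => 1) contDiffOn_const {x} (by simpa)
      isCompact_singleton 0 1 one_pos
    obtain ⟨f, -, hf⟩ := per_range hm hw hψ hN hh hp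
    have := hn.zero rfl
    simp [hf x hx, h0] at this
  refine ⟨hΩ, hw, hψ, hm, nz, fun x hx y hy hxy => ?_, fun x hx => ?_⟩
  · by_contra hne
    obtain ⟨i, hi⟩ := Function.ne_iff.1 hne
    have c0 : 0 < ‖((x i - y i : ℝ) : 𝕂) * w y‖ :=
      norm_pos_iff.2 (mul_ne_zero (by simpa [sub_eq_zero] using hi) (nz y hy))
    obtain ⟨ε, hε, h1⟩ := small c0 (add_nonneg (norm_nonneg (w y)) (norm_nonneg (w x)))
    obtain ⟨N, h, hN, hh, hp, hn⟩ := hD _ (coord y i).1.contDiffOn {x, y}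
      (by simp [insert_subset_iff, hx, hy]) (Finite.isCompact (by simp)) 0 ε hε
    obtain ⟨f, -, hf⟩ := per_range hm hw hψ hN hh hp
    have a1 := hn.zero (x := x) (by simp)
    have a2 := hn.zero (x := y) (by simp)
    simp only [sub_self, RCLike.ofReal_zero, sub_zero] at a2
    have e : ((x i - y i : ℝ) : 𝕂) * w y = h y * w x - (h x - ((x i - y i : ℝ) : 𝕂)) * w y := by
      rw [hf x hx, hf y hy, hxy]; ring
    have := norm_sub_le (h y * w x) ((h x - ((x i - y i : ℝ) : 𝕂)) * w y)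
    rw [← e, norm_mul (h y), norm_mul (h x - _)] at this
    nlinarith [mul_le_mul_of_nonneg_right a1.le (norm_nonneg (w y)),
      mul_le_mul_of_nonneg_right a2.le (norm_nonneg (w x))]
  · rw [injective_iff_map_eq_zero]
    intro v hv
    by_contra hne
    obtain ⟨i, hi⟩ := Function.ne_iff.1 hne
    have c0 : 0 < ‖w x * (v i : 𝕂)‖ := norm_pos_iff.2 (mul_ne_zero (nz x hx) (by simpa using hi))
    obtain ⟨ε, hε, h1⟩ := small c0 (A := ‖w x‖ * ‖v‖ + ‖fderiv ℝ w x v‖) (by positivity)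
    obtain ⟨N, h, hN, hh, hp, hn⟩ := hD _ (coord x i).1.contDiffOn {x}
      (by simpa) isCompact_singleton 1 ε hε
    obtain ⟨f, sf, hf⟩ := per_range hm hw hψ hN hh hp
    have a1 := hn.zero rfl
    have a2 := hn.one rfl (dAt hΩ hh hx) (dAt hΩ (coord x i).1.contDiffOn hx) v
    rw [(coord x i).2] at a2
    simp only [sub_self, RCLike.ofReal_zero, sub_zero] at a1
    have b1 := (dAt hΩ hw hx).hasFDerivAt.mul
      ((dAt hΩ sf (hm hx)).hasFDerivAt.comp x (dAt hΩ hψ hx).hasFDerivAt)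
    have b2 : fderiv ℝ h x v = f (ψ x) * fderiv ℝ w x v := by
      have : h =ᶠ[𝓝 x] w * f ∘ ψ := by
        filter_upwards [hΩ.mem_nhds hx] with z hz using hf z hz
      rw [this.fderiv_eq, b1.fderiv]
      simp [hv]
    have e : w x * (v i : 𝕂) = h x * fderiv ℝ w x v - w x * (fderiv ℝ h x v - v i) := by
      rw [b2, hf x hx]; ring
    have := norm_sub_le (h x * fderiv ℝ w x v) (w x * (fderiv ℝ h x v - v i))
    rw [← e, norm_mul (h x), norm_mul (w x) (_ - _)] at this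
    nlinarith [mul_le_mul_of_nonneg_right a1.le (norm_nonneg (fderiv ℝ w x v)),
      mul_le_mul_of_nonneg_left a2 (norm_nonneg (w x))]

end Pool.Agent.H.MP_07ea7a_an
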