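import Pool.Agent.H.MP_07ea7a_an.A

namespace Pool.Agent.H.MP_07ea7a_an

open Filter Topology Set
open scoped ContDiff

variable {d : ℕ} {𝕂 : Type} [RCLike 𝕂]
variable {Ω : Set (Fin d → ℝ)} {w : (Fin d → ℝ) → 𝕂} {ψ : (Fin d → ℝ) → Fin d → ℝ}

theorem no_per (hm : MapsTo ψ Ω Ω) (hT : Trans Ω w ψ) (hD : DensePer Ω w ψ) {y} (hy : y ∈ Ω) {p : ℕ}
    (hp : 0 < p) : ψ^[p] y ≠ y := by
  intro hy'
  have it : ∀ q, ψ^[p * q] y = y := fun q => by
    rw [Function.iterate_mul]; exact Function.iterate_fixed hy' q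
  have Wq : ∀ q, W w ψ (p * q) y = W w ψ p y ^ q := by
    intro q
    induction q with
    | zero => simp [W]
    | succ q ih => rw [mul_add_one, W_add, ih, it, pow_succ]
  have h1 : ‖W w ψ p y‖ = 1 := by
    obtain ⟨N, h, hN, hh, hq, hn⟩ := hD (fun _ => 1) contDiffOn_const {y} (by simpa)
      isCompact_singleton 0 1 one_pos
    have a1 := hn.zero rfl
    have a2 : h y ≠ 0 := fun h0 => by simp [h0] at a1
    have a3 := per_iter hm hq p 0 hy
    rw [zero_add, T_iter, mul_comm N, it, Wq] at a3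
    have a4 : W w ψ p y ^ N = 1 := mul_right_cancel₀ a2 (a3.trans (one_mul _).symm)
    have := congrArg norm a4
    rw [norm_pow, norm_one] at this
    exact (pow_eq_one_iff_of_nonneg (norm_nonneg _) (by omega)).1 this
  set C := ∑ r ∈ Finset.range p, ‖W w ψ r y‖ with hC
  have hfin : ((fun i => ψ^[i] y) '' Iio p).Finite := (finite_Iio p).image _
  obtain ⟨m, h, -, n1, n2⟩ := hT (fun _ => 0) (fun _ => ((C + 1 : ℝ) : 𝕂)) contDiffOn_const
    contDiffOn_const _ (by rintro _ ⟨i, -, rfl⟩; exact hm.iterate i hy) hfin.isCompact 0 1 one_pos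
  have b1 := n2.zero ⟨0, hp, rfl⟩
  have b2 := n1.zero ⟨m % p, Nat.mod_lt _ hp, rfl⟩
  simp only [Function.iterate_zero, id, sub_zero] at b1 b2
  rw [T_iter, ← Nat.div_add_mod m p, W_add, add_comm (p * _), Function.iterate_add_apply, it,
    Wq] at b1
  have b3 : ‖W w ψ (m % p) y‖ ≤ C := Finset.single_le_sum (f := fun r => ‖W w ψ r y‖)
    (fun _ _ => norm_nonneg _) (Finset.mem_range.2 (Nat.mod_lt _ hp))
  have b4 := norm_sub_norm_le (((C + 1 : ℝ) : 𝕂))
    (W w ψ p y ^ (m / p) * W w ψ (m % p) y * h (ψ^[m % p] y))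
  have b0 : 0 ≤ C := (norm_nonneg _).trans b3
  rw [norm_sub_rev, RCLike.norm_ofReal, abs_of_nonneg (by linarith), norm_mul, norm_mul, norm_pow,
    h1, one_pow, one_mul] at b4
  nlinarith [norm_nonneg (W w ψ (m % p) y), norm_nonneg (h (ψ^[m % p] y))]

theorem jets (hΩ : IsOpen Ω) (hm : MapsTo ψ Ω Ω) (hD : DensePer Ω w ψ) {x y} (hx : x ∈ Ω)
    (hy : y ∈ Ω) : ∃ (N : ℕ) (G : (Fin d → ℝ) → 𝕂) (F : Fin d → (Fin d → ℝ) → 𝕂), 1 ≤ N ∧
      ContDiffOn ℝ ∞ G Ω ∧ EqOn ((T w ψ)^[N] G) G Ω ∧ G x ≠ 0 ∧ G y ≠ 0 ∧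
      (∀ i, ContDiffOn ℝ ∞ (F i) Ω ∧ EqOn ((T w ψ)^[N] (F i)) (F i) Ω ∧ F i y = 0) ∧
      ∀ᶠ u in 𝓝 y, ‖u - y‖ ≤ 4 * ‖fun i => F i u‖ := by
  have hK : ({x, y} : Set _) ⊆ Ω := by simp [insert_subset_iff, hx, hy]
  have hc : IsCompact ({x, y} : Set (Fin d → ℝ)) := Finite.isCompact (by simp)
  obtain ⟨N0, G, hN0, sG, pG, nG⟩ := hD (fun _ => 1) contDiffOn_const _ hK hc 1 (1 / 10)
    (by norm_num)
  choose N H hN sH pH nH using fun i => hD _ (coord y i).1.contDiffOn _ hK hc 1 (1 / 10)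
    (by norm_num)
  have g1 := nG.zero (x := x) (by simp)
  have g2 := nG.zero (x := y) (by simp)
  have pG' : EqOn ((T w ψ)^[N0 * ∏ i, N i] G) G Ω := by simpa using per_iter hm pG (∏ i, N i) 0
  have pH' : ∀ i, EqOn ((T w ψ)^[N0 * ∏ i, N i] (H i)) (H i) Ω := by
    intro i
    obtain ⟨q, hq⟩ : N i ∣ N0 * ∏ i, N i :=
      (Finset.dvd_prod_of_mem N (Finset.mem_univ i)).mul_left _
    simpa [hq] using per_iter hm (pH i) q 0
  refine ⟨N0 * ∏ i, N i, G, fun i u => G y * H i u - H i y * G u,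
    Nat.mul_pos hN0 (Finset.prod_pos fun i _ => hN i), sG, pG', fun h => by
      rw [h] at g1; norm_num at g1, fun h => by rw [h] at g2; norm_num at g2,
    fun i => ⟨(contDiffOn_const.mul (sH i)).sub (contDiffOn_const.mul sG), fun z hz => ?_,
      by ring⟩, ?_⟩
  · have a1 := pG' hz
    have a2 := pH' i hz
    rw [T_iter] at a1 a2 ⊢
    simp only
    rw [← a1, ← a2]
    ring
  have key : ∀ i, ∀ᶠ u in 𝓝 y, |u i - y i| ≤ ‖G y * H i u - H i y * G u‖ + 3 / 4 * ‖u - y‖ := by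
    intro i
    have dG := dAt hΩ sG hy
    have dH := dAt hΩ (sH i) hy
    have d1 := (dH.hasFDerivAt.const_mul (G y)).sub (dG.hasFDerivAt.const_mul (H i y))
    filter_upwards [d1.isLittleO.def (show (0 : ℝ) < 1 / 10 by norm_num)] with u hu
    have a1 := nG.one (x := y) (by simp) dG (differentiableAt_const _) (u - y)
    have a2 := (nH i).one (x := y) (by simp) dH (dAt hΩ (coord y i).1.contDiffOn hy) (u - y)
    have a3 := (nH i).zero (x := y) (by simp)
    rw [(coord y i).2] at a2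
    simp only [fderiv_fun_const, Pi.zero_apply, ContinuousLinearMap.zero_apply, sub_zero] at a1
    simp only [sub_self, RCLike.ofReal_zero, sub_zero] at a3
    simp only [Pi.sub_apply, ContinuousLinearMap.sub_apply, ContinuousLinearMap.smul_apply,
      smul_eq_mul] at hu a2
    have a4 : ‖((u i - y i : ℝ) : 𝕂)‖ ≤ ‖u - y‖ := by
      rw [RCLike.norm_ofReal]
      exact norm_le_pi_norm (u - y) i
    rw [← RCLike.norm_ofReal (K := 𝕂)]
    generalize ((u i - y i : ℝ) : 𝕂) = t at *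
    generalize fderiv ℝ (H i) y (u - y) = a at *
    generalize fderiv ℝ G y (u - y) = b at *
    generalize G y * H i u - H i y * G u = c at *
    have e : t = c - (c - (G y * H i y - H i y * G y) - (G y * a - H i y * b)) -
        ((G y - 1) * (a - t) + (a - t) + (G y - 1) * t - H i y * b) := by ring
    have b1 := norm_sub_le (c - (c - (G y * H i y - H i y * G y) - (G y * a - H i y * b)))
      ((G y - 1) * (a - t) + (a - t) + (G y - 1) * t - H i y * b)
    rw [← e] at b1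
    have b2 := norm_sub_le c (c - (G y * H i y - H i y * G y) - (G y * a - H i y * b))
    have b3 := norm_sub_le ((G y - 1) * (a - t) + (a - t) + (G y - 1) * t) (H i y * b)
    have b4 := norm_add₃_le (a := (G y - 1) * (a - t)) (b := a - t) (c := (G y - 1) * t)
    rw [norm_mul, norm_mul] at b4
    rw [norm_mul] at b3
    have c1 := mul_le_mul g2.le a2 (norm_nonneg _) (by norm_num)
    have c2 := mul_le_mul g2.le a4 (norm_nonneg _) (by norm_num)
    have c3 := mul_le_mul a3.le a1 (norm_nonneg _) (by norm_num)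
    linarith [norm_nonneg (u - y)]
  filter_upwards [eventually_all.2 key] with u hu
  have : ‖u - y‖ ≤ ‖fun i => G y * H i u - H i y * G u‖ + 3 / 4 * ‖u - y‖ := by
    refine (pi_norm_le_iff_of_nonneg (by positivity)).2 fun i => (hu i).trans ?_
    have := norm_le_pi_norm (fun i => G y * H i u - H i y * G u) i
    linarith
  linarith

theorem land (H : Nice Ω w ψ) (hD : DensePer Ω w ψ) {x y} (hx : x ∈ Ω) (hy : y ∈ Ω) {n : ℕ → ℕ}
    {z : ℕ → Fin d → ℝ} (hz : Tendsto z atTop (𝓝 x))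
    (hz' : Tendsto (fun k => ψ^[n k] (z k)) atTop (𝓝 y)) : ∃ᶠ k in atTop, ψ^[n k] x = y := by
  obtain ⟨N, G, F, hN, sG, pG, gx, gy, hF, hρ⟩ := jets H.op H.mp hD hx hy
  obtain ⟨r, hr, hfr⟩ : ∃ r ∈ Iio N, ∃ᶠ k in atTop, n k % N = r :=
    (finite_Iio N).frequently_exists.1
      (Frequently.of_forall fun k => ⟨n k % N, Nat.mod_lt _ hN, rfl⟩)
  have cA : ∀ {f : (Fin d → ℝ) → 𝕂}, ContDiffOn ℝ ∞ f Ω → ∀ {u}, u ∈ Ω → ContinuousAt f u :=
    fun hf _ hu => (dAt H.op hf hu).continuousAt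
  have sm := fun m {f} hf => T_smooth (h := f) H.sw H.sψ H.mp m hf
  have i1 : ∀ {f : (Fin d → ℝ) → 𝕂}, EqOn ((T w ψ)^[N] f) f Ω → ∀ k, n k % N = r → ∀ u ∈ Ω,
      (T w ψ)^[r] f u = W w ψ (n k) u * f (ψ^[n k] u) := by
    intro f pf k hk u hu
    rw [← per_iter H.mp pf (n k / N) r hu, ← hk, Nat.mod_add_div, T_iter]
  have i2 : ∀ k, n k % N = r → ∀ u ∈ Ω,
      G u = W w ψ (n k) u * (T w ψ)^[N - r] G (ψ^[n k] u) := by
    intro k hk u hu
    have h1 := per_iter H.mp pG (n k / N + 1) 0 hu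
    have h2 : 0 + N * (n k / N + 1) = n k + (N - r) := by
      have := Nat.mod_add_div (n k) N
      have : r < N := hr
      rw [mul_add_one]
      omega
    rw [h2, Function.iterate_add_apply, T_iter] at h1
    exact h1.symm
  have hzΩ := hz.eventually (H.op.mem_nhds hx)
  have c1 : (T w ψ)^[r] G x ≠ 0 := by
    have := tendsto_nhds_unique_of_frequently_eq
      (((cA (sm r sG) hx).tendsto.comp hz).mul ((cA (sm (N - r) sG) hy).tendsto.comp hz'))
      (((cA sG hx).tendsto.comp hz).mul ((cA sG hy).tendsto.comp hz'))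
      ((hfr.and_eventually hzΩ).mono fun k hk => by
        simp only [Function.comp]
        rw [i1 pG k hk.1 _ hk.2, i2 k hk.1 _ hk.2]
        ring)
    intro h0
    rw [h0, zero_mul] at this
    exact mul_ne_zero gx gy this.symm
  have i3 : ∀ k, n k % N = r → ∀ u ∈ Ω, G (ψ^[n k] u) • (fun i => (T w ψ)^[r] (F i) u) =
      (T w ψ)^[r] G u • fun i => F i (ψ^[n k] u) := by
    intro k hk u hu
    funext i
    simp only [Pi.smul_apply, smul_eq_mul]
    rw [i1 pG k hk u hu, i1 (hF i).2.1 k hk u hu]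
    ring
  have c2 : (fun i => (T w ψ)^[r] (F i) x) = 0 := by
    funext i
    have := tendsto_nhds_unique_of_frequently_eq
      (((cA sG hy).tendsto.comp hz').mul ((cA (sm r (hF i).1) hx).tendsto.comp hz))
      (((cA (sm r sG) hx).tendsto.comp hz).mul ((cA (hF i).1 hy).tendsto.comp hz'))
      ((hfr.and_eventually hzΩ).mono fun k hk => congrFun (i3 k hk.1 _ hk.2) i)
    rw [(hF i).2.2, mul_zero] at this
    exact (mul_eq_zero.1 this).resolve_left gy
  have e1 : ∀ᶠ u in 𝓝 y, ‖G u‖ < ‖G y‖ + 1 :=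
    (cA sG hy).norm.eventually (gt_mem_nhds (lt_add_one _))
  obtain ⟨ρ, ρ0, hρ'⟩ := Metric.nhds_basis_closedBall.eventually_iff.1 (hρ.and e1)
  have e2 : ∀ᶠ u in 𝓝 x, 4 * ‖fun i => (T w ψ)^[r] (F i) u‖ * (‖G y‖ + 1) <
      ρ * ‖(T w ψ)^[r] G u‖ := by
    refine ContinuousAt.eventually_lt ((continuousAt_const.mul (continuousAt_pi.2 fun i =>
      cA (sm r (hF i).1) hx).norm).mul continuousAt_const)
      (continuousAt_const.mul (cA (sm r sG) hx).norm) ?_
    rw [c2, norm_zero, mul_zero, zero_mul]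
    exact mul_pos ρ0 (norm_pos_iff.2 c1)
  obtain ⟨δ, δ0, hδ⟩ := Metric.nhds_basis_ball.eventually_iff.1 (e2.and (H.op.mem_nhds hx))
  refine ((hfr.and_eventually (hz.eventually (Metric.ball_mem_nhds x δ0))).and_eventually
    (hz'.eventually (Metric.ball_mem_nhds y ρ0))).mono fun k hk => ?_
  obtain ⟨⟨hk, k1⟩, k2⟩ := hk
  have cψ := (iter_smooth H.sψ H.mp (n k)).continuousOn
  have est : ∀ u ∈ Ω, ψ^[n k] u ∈ Metric.closedBall y ρ → ‖(T w ψ)^[r] G u‖ * ‖ψ^[n k] u - y‖ ≤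
      4 * ‖fun i => (T w ψ)^[r] (F i) u‖ * (‖G y‖ + 1) := by
    intro u hu h1
    obtain ⟨h2, h3⟩ := hρ' h1
    have := congrArg norm (i3 k hk u hu)
    rw [norm_smul, norm_smul] at this
    nlinarith [mul_le_mul_of_nonneg_left h2 (norm_nonneg ((T w ψ)^[r] G u)),
      mul_le_mul_of_nonneg_left h3.le (norm_nonneg fun i => (T w ψ)^[r] (F i) u)]
  have sub : Metric.ball x δ ⊆ Ω ∩ ψ^[n k] ⁻¹' Metric.ball y ρ := by
    refine (convex_ball x δ).isPreconnected.subset_of_closure_inter_subset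
      (cψ.isOpen_inter_preimage H.op Metric.isOpen_ball) ⟨z k, k1, (hδ k1).2, k2⟩ ?_
    rintro u ⟨h1, h2⟩
    obtain ⟨h3, h4⟩ := hδ h2
    have h5 : ψ^[n k] u ∈ Metric.closedBall y ρ := by
      have h6 := mem_closure_image (cψ.continuousAt (H.op.mem_nhds h4)) h1
      refine closure_minimal ?_ Metric.isClosed_closedBall h6
      rintro _ ⟨v, hv, rfl⟩
      exact Metric.ball_subset_closedBall hv.2
    refine ⟨h4, ?_⟩
    rw [mem_preimage, mem_ball_iff_norm]
    have := (est u h4 h5).trans_lt h3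
    rw [mul_comm ρ] at this
    exact lt_of_mul_lt_mul_left this (norm_nonneg _)
  have := est x hx (Metric.ball_subset_closedBall (sub (Metric.mem_ball_self δ0)).2)
  rw [c2, norm_zero, mul_zero, zero_mul] at this
  have h6 := norm_pos_iff.2 c1
  have h7 : ‖ψ^[n k] x - y‖ ≤ 0 := by
    by_contra h
    nlinarith
  exact sub_eq_zero.1 (norm_le_zero_iff.1 h7)

theorem strong (H : Nice Ω w ψ) (hT : Trans Ω w ψ) (hD : DensePer Ω w ψ) {K} (hK : K ⊆ Ω)
    (hc : IsCompact K) : ∀ᶠ m in atTop, Disjoint K (ψ^[m] '' K) := by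
  by_contra h
  obtain ⟨n, hn, h1⟩ := extraction_of_frequently_atTop (not_eventually.1 h)
  have : ∀ k, ∃ p ∈ K ×ˢ K, ψ^[n k] p.1 = p.2 := by
    intro k
    obtain ⟨y, hy, x, hx, e⟩ := not_disjoint_iff.1 (h1 k)
    exact ⟨(x, y), ⟨hx, hy⟩, e⟩
  choose p hp e using this
  obtain ⟨q, hq, φ, hφ, hl⟩ := (hc.prod hc).tendsto_subseq hp
  have h2 := land H hD (hK hq.1) (hK hq.2) (n := n ∘ φ) (z := fun k => (p (φ k)).1)
    ((continuous_fst.tendsto q).comp hl)
    (((continuous_snd.tendsto q).comp hl).congr fun k => (e (φ k)).symm)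
  obtain ⟨k, hk⟩ := h2.exists
  obtain ⟨l, hl, hl'⟩ := frequently_atTop.1 h2 (k + 1)
  have h3 : (n ∘ φ) k < (n ∘ φ) l := (hn.comp hφ) hl
  obtain ⟨j, hj⟩ := Nat.exists_eq_add_of_lt h3
  refine no_per H.mp hT hD (hK hq.2) (Nat.succ_pos j) ?_
  rw [hj, add_assoc, add_comm, Function.iterate_add_apply, hk] at hl'
  exact hl'

theorem main (hΩ : IsOpen Ω) (hw : ContDiffOn ℝ ∞ w Ω) (hψ : ContDiffOn ℝ ∞ ψ Ω)
    (hm : MapsTo ψ Ω Ω) (hT : Trans Ω w ψ) (hD : DensePer Ω w ψ) : Mixing Ω w ψ := by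
  have H := nice_of_dense hΩ hw hψ hm hD
  intro f g hf hg K hK hc n ε hε
  obtain ⟨M, hM⟩ := eventually_atTop.1 (strong H hT hD hK hc)
  refine ⟨M, fun m h => ?_⟩
  obtain ⟨h, h1, h2, h3⟩ := H.step hf hg hK hc (hM m h)
  exact ⟨h, h1, near_of_eq h2 n hε, near_of_eq h3 n hε⟩

end Pool.Agent.H.MP_07ea7a_an
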